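import Mathlib
import Pool.Agent.V11205.MutationExample

/-! # `n` is not a mutation invariant

Let `K` be a knot with Seifert matrix `V = (5 2; 1 11)`. The knots `K # -K` and `K # -K^r` are
(negative) mutants of each other, with Seifert matrices `V ⊕ -V` and `V ⊕ -Vᵀ`. -/

set_option autoImplicit false

namespace Pool.Agent.Results.MP_9d46ca_gt.NotMutationInvariant

open Pool.Agent.V11205.Blanchfield

theorem result : ∃ V W : Matrix (Fin 2) (Fin 2) ℤ,
    (V - V.transpose).det = 1 ∧ (W - W.transpose).det = 1 ∧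
    nInv (connSum V W.transpose) ≤ 2 ∧ 3 ≤ nInv (connSum V W) := by
  refine ⟨V0, -V0, by decide, by decide, ?_, ?_⟩
  · unfold nInv
    exact iInf₂_le 2 ⟨A0, presents_A0⟩
  · unfold nInv
    refine le_iInf₂ fun k hk => ?_
    obtain ⟨A, hA⟩ := hk
    by_contra hlt
    have hk2 : k ≤ 2 := by
      have h1 : (k : ℕ∞) < 3 := not_le.1 hlt
      have h2 : (k : ℕ∞) < ((3 : ℕ) : ℕ∞) := h1
      have h3 : k < 3 := by exact_mod_cast h2
      omega
    exact not_presents k hk2 A hA

end Pool.Agent.Results.MP_9d46ca_gt.NotMutationInvariant
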